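import Pool.Agent.Y599.IPT.Fin

/-!
The increasing polarized Ramsey theorem for triples and `k` colours, restricted to the instances
which are stable in the last variable, is strongly computably reducible to Hindman's theorem for
sums of at most three terms and `4k(2k-1)` colours.
-/

namespace Pool.Agent.Results.MP_e6cd9b_lc.StableIPT3

open Pool.Agent.Y599.IPT Pool.Agent.H645R2.HT

/-- For every `k ≥ 1` and every `k`-colouring `x` of triples such that `lim_c x(a, b, c)` exists
for all `a < b` there is a colouring `y` of the positive integers with `4k(2k-1)` colours,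
computable in `x`, such that every infinite set of positive integers, all of whose sums of at most
three distinct elements get the same colour, computes (without access to `x`) three infinite sets
`H₁, H₂, H₃` and `x` is constant on the triples `a < b < c` with `a ∈ H₁`, `b ∈ H₂`, `c ∈ H₃`. -/
theorem result :
    ∀ k : ℕ, 1 ≤ k →
      ∀ x : ℕ → ℕ, (∀ m, x m < k) →
        (∀ a b, a < b → ∃ v N, ∀ c, N ≤ c → x (Nat.pair a (Nat.pair b c)) = v) →
        ∃ y : ℕ → ℕ, (∀ m, y m < 4 * (k * (2 * k - 1))) ∧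
          TuringReducible (PFun.lift y) (PFun.lift x) ∧
          ∀ h : ℕ → ℕ, (∀ m, h m ≤ 1) →
            Set.Infinite {m : ℕ | h m = 1} →
            (∀ m, h m = 1 → 0 < m) →
            (∀ F G : Finset ℕ, F.Nonempty → G.Nonempty → F.card ≤ 3 → G.card ≤ 3 →
              (∀ a ∈ F, h a = 1) → (∀ a ∈ G, h a = 1) →
              y (∑ a ∈ F, a) = y (∑ a ∈ G, a)) →
            ∃ g : ℕ → ℕ, (∀ m, g m ≤ 1) ∧
              TuringReducible (PFun.lift g) (PFun.lift h) ∧
              (∀ i : ℕ, i < 3 → Set.Infinite {m : ℕ | g (Nat.pair i m) = 1}) ∧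
              ∀ a b c d e f : ℕ, a < b → b < c → d < e → e < f →
                g (Nat.pair 0 a) = 1 → g (Nat.pair 1 b) = 1 → g (Nat.pair 2 c) = 1 →
                g (Nat.pair 0 d) = 1 → g (Nat.pair 1 e) = 1 → g (Nat.pair 2 f) = 1 →
                x (Nat.pair a (Nat.pair b c)) = x (Nat.pair d (Nat.pair e f)) := by
  intro k hk x hx hst
  obtain ⟨y, hy1, hy2, hy⟩ := main hk hx (fun a b hab => by
    obtain ⟨v, N, hN⟩ := hst a b hab
    exact ⟨N, fun c hc => by rw [hN c hc, hN (c + 1) (by omega)]⟩)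
  refine ⟨y, hy1, hy2, fun h hh hinf hpos hc => ?_⟩
  obtain ⟨x0, hx0⟩ := hinf.nonempty
  have hc3 : Const3 y {m : ℕ | h m = 1} := by
    refine ⟨y (∑ a ∈ {x0}, a), fun F hF hne hcard => ?_⟩
    exact hc F {x0} hne (by simp) hcard (by simp) (fun a ha => hF ha)
      (fun a ha => by rw [Finset.mem_singleton.1 ha]; exact hx0)
  obtain ⟨e, e1, e2, g, g1, g2, g3, g4, g5, v, hv⟩ := hy h hh hinf hpos hc3
  have hpos' : ∀ n, 0 < e n := fun n => hpos _ (e1 n)
  have m1 : StrictMono fun n => la (e n) := strictMono_nat_of_lt_succ fun n => sep_lt (hpos' n) (e2 n)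
  have m2 : StrictMono fun n => mu (e n) := strictMono_nat_of_lt_succ fun n =>
    lt_of_lt_of_le (e2 n) (la_le_mu (hpos' (n + 1)))
  refine ⟨g, g1, g2, fun i hi => ?_, ?_⟩
  · have hi' : i = 0 ∨ i = 1 ∨ i = 2 := by omega
    rcases hi' with rfl | rfl | rfl
    · refine (Set.infinite_range_of_injective m2.injective).mono ?_
      rintro _ ⟨n, rfl⟩
      exact (g3 _).2 ⟨n, rfl⟩
    · refine (Set.infinite_range_of_injective m1.injective).mono ?_
      rintro _ ⟨n, rfl⟩
      exact (g4 _).2 ⟨n, rfl⟩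
    · refine (Set.infinite_range_of_injective m2.injective).mono ?_
      rintro _ ⟨n, rfl⟩
      exact (g5 _).2 ⟨n, rfl⟩
  · intro a b c d e' f h1 h2 h3 h4 p1 p2 p3 p4 p5 p6
    rw [hv a b c h1 h2 p1 p2 p3, hv d e' f h3 h4 p4 p5 p6]

end Pool.Agent.Results.MP_e6cd9b_lc.StableIPT3
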